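import Pool.Agent.helper93.TV.Spec1

namespace Pool.Agent.helper93.TV

open BigOperators Finset Matrix

theorem BB : BB_stmt := by
  intro hU2 hS1 I V _ _ _ _ D F hF β γ
  have h1 := hS1 I V D F hF β γ (D.eta (D.du (D.s2 β))) (D.rho (D.t β))
  have h2 : ∑ α, star (D.Bm F β α) * D.Bm F α γ =
      ∑ α, star (D.Bm F β α) * F α γ (D.eta (D.du (D.s2 β))) (D.rho (D.t β)) := by
    refine Finset.sum_congr rfl fun α _ => ?_
    by_cases h : D.Bm F β α = 0
    · rw [h, star_zero, zero_mul, zero_mul]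
    · obtain ⟨a1, -, -, -, a5, -⟩ := (hF.uf.conn.supp _ _ _ _ h).1
      rw [D.s2_eta] at a5
      have e : D.Bm F α γ = F α γ (D.eta (D.s2 α)) (D.rho (D.s1 α)) := rfl
      rw [e, a5, ← a1]
  rw [h2, h1, Finset.sum_eq_single (D.rho (D.s2 β))]
  · rw [hU2 I V D F hF β γ]
    have e : D.Cm F (D.eta (D.du (D.s2 β))) (D.rho (D.s2 β)) = D.sc F (D.s2 β) := by
      have e1 : D.Cm F (D.eta (D.du (D.s2 β))) (D.rho (D.s2 β)) =
        F (D.eta (D.du (D.s1 (D.eta (D.du (D.s2 β)))))) (D.lam (D.s2 (D.eta (D.du (D.s2 β)))))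
          (D.eta (D.du (D.s2 β))) (D.rho (D.s2 β)) := rfl
      rw [e1, D.s1_eta, D.s2_eta, D.du_du]
      rfl
    rw [e]
    split_ifs <;> simp
  · intro κ' _ hne
    by_cases h : D.Cm F (D.eta (D.du (D.s2 β))) κ' = 0
    · rw [h, zero_mul]
    · exfalso
      obtain ⟨-, a2, a3, -, -, -⟩ := (hF.uf.conn.supp _ _ _ _ h).1
      rw [D.t_eta] at a2
      rw [D.s1_eta, D.s1_eta, D.du_du] at a3
      refine hne ?_
      rw [D.rho_unique κ' a2.symm, ← a3]
  · intro h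
    exact absurd (Finset.mem_univ _) h

end Pool.Agent.helper93.TV
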