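import Pool.Agent.helper93.TV.Spec2

set_option autoImplicit false

namespace Pool.Agent.helper93.TV

open BigOperators Finset Matrix

/-- Row OC: class sets are closed. -/
theorem OC : OC_stmt := by
  intro hPO hCT hBD I V _ _ _ _ D X m bp F
  classical
  obtain ⟨hC1, hC2⟩ := hCT I V D X m bp
  have hFV : IsClosed (D.FV X m) := by
    obtain ⟨f, _, _, hf⟩ := hPO I V D X m
    have h0 : D.FV X m = {x | MvPolynomial.eval x f = 0} := by
      ext x
      exact (hf x).symm
    rw [h0]
    exact isClosed_eq (MvPolynomial.continuous_eval f) continuous_const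
  have hext : ∀ β p, Continuous fun z : (D.Q X × Bool → ℝ) × (V → (lists V m) → ℂ) =>
      ext m z.2 β p := by
    intro β p
    unfold ext
    by_cases h : p ∈ lists V m
    · simp only [h, dite_true]
      exact (continuous_apply _).comp ((continuous_apply β).comp continuous_snd)
    · simp only [h, dite_false]
      exact continuous_const
  let K : Set ((D.Q X × Bool → ℝ) × (V → (lists V m) → ℂ)) :=
    {z | z.1 ∈ D.FV X m ∧ D.JS X (D.cof X z.1) m bp (ext m z.2) ∧
      D.form X (D.cof X z.1) m bp (ext m z.2) = F}
  have hKeq : K = (Prod.fst ⁻¹' D.FV X m) ∩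
      (({z | ∀ β p, ¬ (p ∈ lists V m ∧ D.ok X (D.s1 β) p ∧ D.en (D.s1 β) p = D.t β) →
          ext m z.2 β p = 0} ∩
        {z | ∀ β β', D.s1 β = D.s1 β' → D.s2 β = D.s2 β' →
          ∑ p ∈ lists V m, ext m z.2 β p * star (ext m z.2 β' p) = if β = β' then 1 else 0}) ∩
        ({z | ∀ a b p q, ∑ β ∈ univ.filter (fun β => D.s1 β = a ∧ D.s2 β = b),
          star (ext m z.2 β p) * ext m z.2 β q =
            D.Phi X (D.cof X z.1) m m m (mu (bp b) (bp b)) a p q} ∩
        {z | ∀ α γ β δ, D.form X (D.cof X z.1) m bp (ext m z.2) α γ β δ = F α γ β δ})) := by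
    ext z
    constructor
    · rintro ⟨h1, h2, h3⟩
      refine ⟨h1, ⟨?_, h2.orth⟩, h2.comp, fun α γ β δ => by rw [h3]⟩
      intro β p hn
      by_contra hc
      exact hn (h2.supp β p hc)
    · rintro ⟨h1, ⟨h2, h3⟩, h4, h5⟩
      refine ⟨h1, ⟨fun β p hne => ?_, h3, h4⟩, ?_⟩
      · by_contra hc
        exact hne (h2 β p hc)
      · funext α γ β δ
        exact h5 α γ β δ
  have hKc : IsClosed K := by
    rw [hKeq]
    refine (hFV.preimage continuous_fst).inter (IsClosed.inter (IsClosed.inter ?_ ?_)
      (IsClosed.inter ?_ ?_))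
    · simp only [Set.ofPred_forall]
      exact isClosed_iInter fun β => isClosed_iInter fun p => isClosed_iInter fun _ =>
        isClosed_eq (hext β p) continuous_const
    · simp only [Set.ofPred_forall]
      exact isClosed_iInter fun β => isClosed_iInter fun β' => isClosed_iInter fun _ =>
        isClosed_iInter fun _ =>
          isClosed_eq (continuous_finsetSum _ fun p _ => (hext β p).mul (hext β' p).star)
            continuous_const
    · simp only [Set.ofPred_forall]
      exact isClosed_iInter fun a => isClosed_iInter fun b => isClosed_iInter fun p =>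
        isClosed_iInter fun q =>
          isClosed_eq (continuous_finsetSum _ fun β _ => (hext β p).star.mul (hext β q))
            ((hC1 m m (mu (bp b) (bp b)) a p q).comp continuous_fst)
    · simp only [Set.ofPred_forall]
      exact isClosed_iInter fun α => isClosed_iInter fun γ => isClosed_iInter fun β =>
        isClosed_iInter fun δ => isClosed_eq (hC2 α γ β δ) continuous_const
  have hKb : Bornology.IsBounded K := by
    refine (Metric.isBounded_closedBall (x := (0 : (D.Q X × Bool → ℝ) × (V → (lists V m) → ℂ)))
      (r := 1)).subset ?_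
    rintro z ⟨h1, h2, -⟩
    rw [mem_closedBall_zero_iff, Prod.norm_def, max_le_iff]
    refine ⟨(pi_norm_le_iff_of_nonneg zero_le_one).2 fun i => ?_,
      (pi_norm_le_iff_of_nonneg zero_le_one).2 fun β =>
        (pi_norm_le_iff_of_nonneg zero_le_one).2 fun p => ?_⟩
    · rw [Real.norm_eq_abs]
      exact hBD I V D X m z.1 h1 i
    · have ho := h2.orth β β rfl rfl
      rw [if_pos rfl] at ho
      have hre : ∑ q ∈ lists V m, ‖ext m z.2 β q‖ ^ 2 = 1 := by
        have h3 : (((∑ q ∈ lists V m, ‖ext m z.2 β q‖ ^ 2 : ℝ)) : ℂ) = 1 := by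
          rw [← ho]
          push_cast
          refine Finset.sum_congr rfl fun q _ => ?_
          rw [← Complex.mul_conj']
          rfl
        exact_mod_cast h3
      have hle : ‖ext m z.2 β p.1‖ ^ 2 ≤ 1 := by
        rw [← hre]
        exact Finset.single_le_sum (f := fun q => ‖ext m z.2 β q‖ ^ 2)
          (fun q _ => sq_nonneg _) p.2
      have he : ext m z.2 β p.1 = z.2 β p := by
        unfold ext
        rw [dif_pos p.2]
      rw [he] at hle
      nlinarith [norm_nonneg (z.2 β p)]
  have hKk : IsCompact K := Metric.isCompact_of_isClosed_isBounded hKc hKb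
  have hOm : D.Om X m bp F = Prod.fst '' K := by
    ext x
    constructor
    · rintro ⟨h1, J, h2, h3⟩
      have hJ : ext m (fun β (p : lists V m) => J β p.1) = J := by
        funext β p
        unfold ext
        by_cases h : p ∈ lists V m
        · rw [dif_pos h]
        · rw [dif_neg h]
          by_contra hc
          exact h (h2.supp β p (fun h0 => hc h0.symm)).1
      refine ⟨(x, fun β (p : lists V m) => J β p.1), ⟨h1, ?_, ?_⟩, rfl⟩
      · show D.JS X (D.cof X x) m bp (ext m (fun β (p : lists V m) => J β p.1))
        rw [hJ]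
        exact h2
      · show D.form X (D.cof X x) m bp (ext m (fun β (p : lists V m) => J β p.1)) = F
        rw [hJ]
        exact h3
    · rintro ⟨z, ⟨h1, h2, h3⟩, rfl⟩
      exact ⟨h1, ext m z.2, h2, h3⟩
  rw [hOm]
  exact (hKk.image continuous_fst).isClosed

end Pool.Agent.helper93.TV
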